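import Pool.Graph.R_pool_sql_team_seeded_620a6dc7.Helper976_Bal.Main

set_option autoImplicit false

/-!
# Balancing unit vectors under the parity condition: rational inner products

If all inner products of the unit vectors are multiples of `1`, `1/2` or `1/3` (for example the
roots of a simply laced root system scaled to length one, or equiangular lines with angle
`arccos (1/3)`), the parity conjecture holds.  It also holds for multiples of `1/t`, `t ≤ 7`, if
`t (n - d + 1) / 2 + t ∑_{i < j} ⟪v i, v j⟫` is even.  The radius is attained in `ℝ ^ 3` by the six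
root directions of `A₃`, which span pairwise distinct lines.

The integer `t ‖∑ η i • v i‖ ^ 2` has a fixed residue modulo `4`, and the squared norm cannot always
exceed `d - 1/2`.
-/

namespace Pool.Agent.Results.MP_1be6c9_co.RationalProducts

open Finset

/-- `η` consists of signs. -/
def Signs {n : ℕ} (η : Fin n → ℝ) : Prop := ∀ i, η i = 1 ∨ η i = -1

lemma sign_int {n : ℕ} {η : Fin n → ℝ} (h : Signs η) :
    ∃ e : Fin n → ℤ, (∀ i, e i = 1 ∨ e i = -1) ∧ ∀ i, η i = e i := by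
  refine ⟨fun i => if η i = 1 then 1 else -1, fun i => ?_, fun i => ?_⟩
  · by_cases hi : η i = 1 <;> simp [hi]
  · rcases h i with hi | hi
    · simp [hi]
    · have h1 : ¬ η i = 1 := by rw [hi]; norm_num
      simp only [h1, if_false]
      rw [hi]; norm_num

/-- the squared norm of a signed sum -/
lemma norm_sq_sum {d n : ℕ} (v : Fin n → EuclideanSpace ℝ (Fin d)) (η : Fin n → ℝ) :
    ‖∑ i, η i • v i‖ ^ 2 = ∑ i, ∑ j, η i * η j * inner ℝ (v i) (v j) := by
  rw [← real_inner_self_eq_norm_sq, sum_inner]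
  refine sum_congr rfl fun i _ => ?_
  rw [inner_sum]
  refine sum_congr rfl fun j _ => ?_
  rw [inner_smul_left, inner_smul_right]
  simp only [conj_trivial]
  ring

/-- a symmetric double sum over the integers -/
lemma symm_sum {n : ℕ} (f : Fin n → Fin n → ℤ) (hf : ∀ i j, f i j = f j i) :
    ∑ i, ∑ j, f i j = ∑ i, f i i + 2 * ∑ p ∈ univ.filter (fun p : Fin n × Fin n => p.1 < p.2),
      f p.1 p.2 := by
  classical
  have h1 : ∑ i, ∑ j, f i j = ∑ p : Fin n × Fin n, f p.1 p.2 := by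
    rw [← univ_product_univ, sum_product]
  have h2 : ∑ p : Fin n × Fin n, f p.1 p.2
      = ∑ p ∈ univ.filter (fun p : Fin n × Fin n => p.1 < p.2), f p.1 p.2
        + ∑ p ∈ univ.filter (fun p : Fin n × Fin n => ¬ p.1 < p.2), f p.1 p.2 :=
    (sum_filter_add_sum_filter_not _ _ _).symm
  have h3 : ∑ p ∈ univ.filter (fun p : Fin n × Fin n => ¬ p.1 < p.2), f p.1 p.2
      = ∑ p ∈ univ.filter (fun p : Fin n × Fin n => p.2 < p.1), f p.1 p.2
        + ∑ p ∈ univ.filter (fun p : Fin n × Fin n => p.1 = p.2), f p.1 p.2 := by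
    rw [← sum_union]
    · refine sum_congr ?_ fun _ _ => rfl
      ext p
      simp only [mem_filter, mem_univ, true_and, mem_union, not_lt]
      exact le_iff_lt_or_eq.trans (or_congr Iff.rfl eq_comm)
    · rw [disjoint_filter]
      intro p _ hp hq
      exact absurd hq (ne_of_gt hp)
  have h4 : ∑ p ∈ univ.filter (fun p : Fin n × Fin n => p.2 < p.1), f p.1 p.2
      = ∑ p ∈ univ.filter (fun p : Fin n × Fin n => p.1 < p.2), f p.1 p.2 := by
    refine sum_bij (fun p _ => (p.2, p.1)) ?_ ?_ ?_ ?_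
    · intro p hp
      simpa using hp
    · intro p _ q _ h
      simp only [Prod.mk.injEq] at h
      exact Prod.ext h.2 h.1
    · intro p hp
      exact ⟨(p.2, p.1), by simpa using hp, rfl⟩
    · intro p _
      exact hf _ _
  have h5 : ∑ p ∈ univ.filter (fun p : Fin n × Fin n => p.1 = p.2), f p.1 p.2 = ∑ i, f i i := by
    refine (sum_bij (fun i _ => (i, i)) ?_ ?_ ?_ ?_).symm
    · intro i _; simp
    · intro i _ j _ h; exact (Prod.mk.injEq _ _ _ _ ▸ h).1
    · intro p hp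
      refine ⟨p.1, mem_univ _, ?_⟩
      have : p.1 = p.2 := by simpa using hp
      exact Prod.ext rfl this
    · intro i _; rfl
  rw [h1, h2, h3, h4, h5]
  ring

/-- The integer `t ‖∑ η i • v i‖ ^ 2` is determined modulo `4`. -/
lemma residue {d n : ℕ} (t : ℤ) (v : Fin n → EuclideanSpace ℝ (Fin d)) (hv : ∀ i, ‖v i‖ = 1)
    (b : Fin n → Fin n → ℤ) (hb : ∀ i j, (t : ℝ) * inner ℝ (v i) (v j) = b i j)
    {η : Fin n → ℝ} (hη : Signs η) :
    ∃ K : ℤ, (t : ℝ) * ‖∑ i, η i • v i‖ ^ 2 = K ∧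
      ∃ z : ℤ, K = t * n + 2 * ∑ p ∈ univ.filter (fun p : Fin n × Fin n => p.1 < p.2), b p.1 p.2
        + 4 * z := by
  classical
  obtain ⟨e, he, hηe⟩ := sign_int hη
  have hbs : ∀ i j, b i j = b j i := by
    intro i j
    have h1 := hb i j
    have h2 := hb j i
    rw [real_inner_comm] at h1
    exact_mod_cast h1.symm.trans h2
  have hbd : ∀ i, b i i = t := by
    intro i
    have h1 := hb i i
    rw [real_inner_self_eq_norm_sq, hv i] at h1
    have : ((b i i : ℤ) : ℝ) = t := by rw [← h1]; ring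
    exact_mod_cast this
  refine ⟨∑ i, ∑ j, e i * e j * b i j, ?_, ?_⟩
  · rw [norm_sq_sum, mul_sum]
    push_cast
    refine sum_congr rfl fun i _ => ?_
    rw [mul_sum]
    refine sum_congr rfl fun j _ => ?_
    rw [← hb i j, hηe i, hηe j]
    ring
  · have h1 := symm_sum (fun i j => e i * e j * b i j) (fun i j => by rw [hbs i j]; ring)
    have h2 : ∑ i, e i * e i * b i i = t * n := by
      have : ∀ i, e i * e i * b i i = t := by
        intro i
        rw [hbd i]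
        rcases he i with h | h <;> rw [h] <;> ring
      rw [sum_congr rfl fun i _ => this i]
      simp [mul_comm]
    have h3 : ∀ p : Fin n × Fin n, ∃ z : ℤ,
        e p.1 * e p.2 * b p.1 p.2 = b p.1 p.2 + 2 * z := by
      intro p
      rcases he p.1 with h | h <;> rcases he p.2 with h' | h' <;> rw [h, h']
      · exact ⟨0, by ring⟩
      · exact ⟨-b p.1 p.2, by ring⟩
      · exact ⟨-b p.1 p.2, by ring⟩
      · exact ⟨0, by ring⟩
    choose z hz using h3
    refine ⟨∑ p ∈ univ.filter (fun p : Fin n × Fin n => p.1 < p.2), z p, ?_⟩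
    rw [h1, h2, sum_congr rfl fun p _ => hz p, sum_add_distrib, ← mul_sum]
    ring

/-- The six positive roots of `A₃`, scaled to length one: `(e_i ± e_j) / √2`. -/
noncomputable def rootA3 (i : Fin 6) : EuclideanSpace ℝ (Fin 3) :=
  (Real.sqrt 2)⁻¹ • !₂[(![1, 1, 1, 1, 0, 0] i : ℝ), (![1, -1, 0, 0, 1, 1] i : ℝ),
    (![0, 0, 1, -1, 1, -1] i : ℝ)]

lemma rootA3_sum (η : Fin 6 → ℝ) : ‖∑ i, η i • rootA3 i‖ ^ 2
    = ((η 0 + η 1 + η 2 + η 3) ^ 2 + (η 0 - η 1 + η 4 + η 5) ^ 2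
      + (η 2 - η 3 + η 4 - η 5) ^ 2) / 2 := by
  have h2 : (Real.sqrt 2)⁻¹ ^ 2 = 1 / 2 := by
    rw [inv_pow, Real.sq_sqrt (by norm_num)]; norm_num
  rw [EuclideanSpace.real_norm_sq_eq]
  simp only [rootA3, Fin.sum_univ_six, Fin.sum_univ_three]
  simp only [PiLp.add_apply, PiLp.smul_apply, smul_eq_mul]
  simp
  ring_nf
  simp only [inv_pow, Real.sq_sqrt (show (0:ℝ) ≤ 2 by norm_num)]
  ring

lemma rootA3_norm (i : Fin 6) : ‖rootA3 i‖ = 1 := by
  have h := rootA3_sum (fun j => if j = i then 1 else 0)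
  have h1 : ∑ j, (if j = i then (1:ℝ) else 0) • rootA3 j = rootA3 i := by simp
  rw [h1] at h
  have h2 : ‖rootA3 i‖ ^ 2 = 1 := by
    rw [h]
    fin_cases i <;> simp [Fin.ext_iff]
  nlinarith [norm_nonneg (rootA3 i)]

lemma rootA3_lower (η : Fin 6 → ℝ) (hη : Signs η) : Real.sqrt 2 ≤ ‖∑ i, η i • rootA3 i‖ := by
  refine Real.sqrt_le_iff.mpr ⟨norm_nonneg _, ?_⟩
  rw [rootA3_sum]
  rcases hη 0 with h0 | h0 <;> rcases hη 1 with h1 | h1 <;> rcases hη 2 with h2 | h2 <;>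
    rcases hη 3 with h3 | h3 <;> rcases hη 4 with h4 | h4 <;> rcases hη 5 with h5 | h5 <;>
    rw [h0, h1, h2, h3, h4, h5] <;> norm_num

/-- twice the Gram matrix of the roots -/
def gramA3 (i j : Fin 6) : ℤ :=
  ![1, 1, 1, 1, 0, 0] i * ![1, 1, 1, 1, 0, 0] j + ![1, -1, 0, 0, 1, 1] i * ![1, -1, 0, 0, 1, 1] j
    + ![0, 0, 1, -1, 1, -1] i * ![0, 0, 1, -1, 1, -1] j

lemma gramA3_ne : ∀ i j : Fin 6, i ≠ j → gramA3 i j ≠ 2 ∧ gramA3 i j ≠ -2 := by
  unfold gramA3; decide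

lemma rootA3_inner (i j : Fin 6) : (2 : ℝ) * inner ℝ (rootA3 i) (rootA3 j) = gramA3 i j := by
  have h2 : (Real.sqrt 2)⁻¹ * (Real.sqrt 2)⁻¹ = 1 / 2 := by
    rw [← mul_inv, Real.mul_self_sqrt (by norm_num)]; norm_num
  have key : (2 : ℝ) * inner ℝ (rootA3 i) (rootA3 j)
      = (![1, 1, 1, 1, 0, 0] i : ℝ) * (![1, 1, 1, 1, 0, 0] j : ℝ)
        + (![1, -1, 0, 0, 1, 1] i : ℝ) * (![1, -1, 0, 0, 1, 1] j : ℝ)
        + (![0, 0, 1, -1, 1, -1] i : ℝ) * (![0, 0, 1, -1, 1, -1] j : ℝ) := by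
    unfold rootA3
    rw [inner_smul_left, inner_smul_right, ← mul_assoc, ← mul_assoc]
    simp only [conj_trivial]
    rw [mul_assoc (2:ℝ), h2]
    simp [PiLp.inner_apply, Fin.sum_univ_three]
    ring
  have ha : ∀ i : Fin 6, (![1, 1, 1, 1, 0, 0] i : ℝ) = ((![1, 1, 1, 1, 0, 0] i : ℤ) : ℝ) := by
    intro i; fin_cases i <;> simp
  have hb : ∀ i : Fin 6, (![1, -1, 0, 0, 1, 1] i : ℝ) = ((![1, -1, 0, 0, 1, 1] i : ℤ) : ℝ) := by
    intro i; fin_cases i <;> simp
  have hc : ∀ i : Fin 6, (![0, 0, 1, -1, 1, -1] i : ℝ) = ((![0, 0, 1, -1, 1, -1] i : ℤ) : ℝ) := by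
    intro i; fin_cases i <;> simp
  rw [key, ha, ha, hb, hb, hc, hc]
  unfold gramA3
  push_cast
  ring

/-- Either all inner products of the `v i` are integer multiples of `1 / t` for a `t ≤ 3`, or they
are integer multiples of `1 / t` for a `t ≤ 7` and `t (n - d + 1) + 2 t ∑_{i < j} ⟪v i, v j⟫` is a
multiple of `4`. -/
def RationalGram {d n : ℕ} (v : Fin n → EuclideanSpace ℝ (Fin d)) : Prop :=
  ∃ t : ℕ, 1 ≤ t ∧ (∀ i j, ∃ z : ℤ, (t : ℝ) * inner ℝ (v i) (v j) = z) ∧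
    (t ≤ 3 ∨ t ≤ 7 ∧ ∃ z : ℤ, (t : ℝ) * ((n : ℝ) - d + 1) +
      2 * ∑ p ∈ univ.filter (fun p : Fin n × Fin n => p.1 < p.2),
        (t : ℝ) * inner ℝ (v p.1) (v p.2) = 4 * z)

theorem main {d n : ℕ} (hpar : n % 2 ≠ d % 2) (v : Fin n → EuclideanSpace ℝ (Fin d))
    (hv : ∀ i, ‖v i‖ = 1) (h : RationalGram v) :
    ∃ η : Fin n → ℝ, Signs η ∧ ‖∑ i, η i • v i‖ ≤ Real.sqrt ((d : ℝ) - 1) := by
  obtain ⟨t, ht1, hint, ht⟩ := h
  choose b hb using hint
  obtain ⟨η, hη, hle⟩ := Pool.Agent.Helper976.Bal.main v hv (by simpa using hpar)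
  have hle' : ‖∑ i, η i • v i‖ ^ 2 ≤ (d : ℝ) - 1 / 2 := by simpa using hle
  refine ⟨η, hη, Real.le_sqrt_of_sq_le ?_⟩
  obtain ⟨K, hK, z, hz⟩ := residue (t : ℤ) v hv b (by simpa using hb) hη
  have htpos : (0 : ℝ) < t := by exact_mod_cast ht1
  push_cast at hK
  set B := ∑ p ∈ univ.filter (fun p : Fin n × Fin n => p.1 < p.2), b p.1 p.2 with hB
  -- `2 K ≤ t (2 d - 1)`
  have h1 : 2 * K ≤ (t : ℤ) * (2 * d - 1) := by
    have : (2 : ℝ) * K ≤ t * (2 * d - 1) := by
      rw [← hK]; nlinarith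
    exact_mod_cast this
  -- it suffices that `K ≤ t (d - 1)`
  suffices h2 : K ≤ (t : ℤ) * ((d : ℤ) - 1) by
    have h3 : (K : ℝ) ≤ t * ((d : ℝ) - 1) := by exact_mod_cast h2
    rw [← hK] at h3
    exact le_of_mul_le_mul_left h3 htpos
  by_contra hcon
  push Not at hcon
  obtain ⟨w, hw⟩ : ∃ w : ℤ, (n : ℤ) - d + 1 = 2 * w := by
    refine ⟨((n : ℤ) - d + 1) / 2, ?_⟩
    omega
  -- the difference
  have h4 : K - (t : ℤ) * ((d : ℤ) - 1) = (t : ℤ) * (2 * w) + 2 * B + 4 * z := by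
    rw [← hw, hz]; ring
  have h5 : 2 * (K - (t : ℤ) * ((d : ℤ) - 1)) ≤ t := by linarith
  rcases ht with ht | ⟨ht, y, hy⟩
  · have ht' : (t : ℤ) ≤ 3 := by exact_mod_cast ht
    have h6 : K - (t : ℤ) * ((d : ℤ) - 1) = 2 * ((t : ℤ) * w + B + 2 * z) := by rw [h4]; ring
    omega
  · have ht' : (t : ℤ) ≤ 7 := by exact_mod_cast ht
    have h7 : (t : ℤ) * ((n : ℤ) - d + 1) + 2 * B = 4 * y := by
      have : (t : ℝ) * ((n : ℝ) - d + 1) + 2 * (B : ℝ) = 4 * y := by
        rw [← hy, hB]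
        push_cast
        congr 2
        exact sum_congr rfl fun p _ => (hb _ _).symm
      exact_mod_cast this
    have h8 : K - (t : ℤ) * ((d : ℤ) - 1) = 4 * (y + z) := by
      rw [h4, ← hw]; linarith
    omega

/-- **Rational inner products.**  The parity conjecture holds for `RationalGram` families of unit
vectors, and for `d = 3`, `n = 6` its radius `√2` is attained by the roots of `A₃`, which form such
a family and span pairwise distinct lines. -/
theorem result :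
    (∀ (d n : ℕ), n % 2 ≠ d % 2 → ∀ v : Fin n → EuclideanSpace ℝ (Fin d), (∀ i, ‖v i‖ = 1) →
      RationalGram v →
      ∃ η : Fin n → ℝ, Signs η ∧ ‖∑ i, η i • v i‖ ≤ Real.sqrt ((d : ℝ) - 1)) ∧
    ∃ v : Fin 6 → EuclideanSpace ℝ (Fin 3), (∀ i, ‖v i‖ = 1) ∧ RationalGram v ∧
      (∀ i j, i ≠ j → v i ≠ v j ∧ v i ≠ - v j) ∧
      ∀ η : Fin 6 → ℝ, Signs η → Real.sqrt 2 ≤ ‖∑ i, η i • v i‖ := by
  refine ⟨fun d n hpar v hv h => main hpar v hv h, rootA3, rootA3_norm, ?_, ?_, rootA3_lower⟩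
  · exact ⟨2, by norm_num, fun i j => ⟨gramA3 i j, by exact_mod_cast rootA3_inner i j⟩,
      Or.inl (by norm_num)⟩
  · intro i j hij
    have h := rootA3_inner i j
    have hg := gramA3_ne i j hij
    constructor
    · intro hij'
      rw [hij', real_inner_self_eq_norm_sq, rootA3_norm] at h
      exact hg.1 (by exact_mod_cast (show ((gramA3 i j : ℤ) : ℝ) = 2 by rw [← h]; norm_num))
    · intro hij'
      rw [hij', inner_neg_left, real_inner_self_eq_norm_sq, rootA3_norm] at h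
      exact hg.2 (by exact_mod_cast (show ((gramA3 i j : ℤ) : ℝ) = -2 by rw [← h]; norm_num))

end Pool.Agent.Results.MP_1be6c9_co.RationalProducts
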